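import Pool.Agent.Y703.QT8
import Pool.Agent.Y180.QT12b2b
import Pool.Agent.Y180.QT12d1

/-! QT-T12, part 1: the trivial bound for the order of vanishing. -/

set_option autoImplicit false

namespace Pool.Agent.Y703.QT12

open Complex MeasureTheory Filter Topology Set
open Pool.Agent.Y19.QT Pool.Agent.Y703.QT8
open Pool.Agent.Y180.QT12b2 (Ep cx Ep_bound Ep_diff Lq_eq lj_le)
open Pool.Agent.H306R2.RZ (js Gk)
open scoped ENNReal ComplexConjugate

variable {Q : ℕ} {lam : ℕ → ℝ} (T : Twists Q lam)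

lemma Lq_def (d : ℤ) (s : ℂ) : T.Lq d s = T.ell d s * Ep T d s := rfl

lemma Lq_five {d : ℤ} (hd : Squarefree d) : 1 / 2 ≤ ‖T.Lq d 5‖ := by
  rw [Lq_eq T hd (T8a T d hd).2.1 (by norm_num)]
  set a : ℕ → ℂ := fun n => LSeries.term (cx fun n => lam n * js d n) 5 n with ha
  have hL : LSeries (cx fun n => lam n * js d n) 5 = ∑' n, a n := rfl
  have h1 : HasSum (fun n : ℕ => 1 / (n : ℝ) ^ 4 - if n = 1 then 1 else 0) (Real.pi ^ 4 / 90 - 1) :=
    hasSum_zeta_four.sub (hasSum_ite_eq 1 1)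
  have h2 : ∀ n : ℕ, ‖a n - if n = 1 then 1 else 0‖ ≤ 1 / (n : ℝ) ^ 4 - if n = 1 then 1 else 0 := by
    intro n
    rcases eq_or_ne n 1 with rfl | hn1
    · have : a 1 = 1 := by
        simp [ha, LSeries.term, cx, T.hecke.one, js, jacobiSym.one_right]
      rw [this]; simp
    · rw [if_neg hn1, if_neg hn1, sub_zero, sub_zero]
      rcases Nat.eq_zero_or_pos n with rfl | hn
      · simp [ha]
      · have hn' : (0 : ℝ) < n := by exact_mod_cast hn
        rw [ha, LSeries.norm_term_eq, if_neg hn.ne']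
        have e : (n : ℝ) ^ (5 : ℂ).re = (n : ℝ) ^ 5 := by
          rw [show (5 : ℂ).re = ((5 : ℕ) : ℝ) by norm_num, Real.rpow_natCast]
        rw [e, cx, Complex.norm_real, Real.norm_eq_abs]
        calc |lam n * js d n| / (n : ℝ) ^ 5 ≤ n / (n : ℝ) ^ 5 := by
              gcongr; exact lj_le T.hecke d n
          _ = 1 / (n : ℝ) ^ 4 := by field_simp
  have h3 : Summable (fun n : ℕ => a n - if n = 1 then 1 else 0) :=
    Summable.of_norm_bounded h1.summable h2
  have h4 := tsum_of_norm_bounded h1 h2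
  have h5 : Summable (fun n : ℕ => (if n = 1 then (1 : ℂ) else 0)) := (hasSum_ite_eq 1 1).summable
  have h6 : ∑' n : ℕ, (a n - if n = 1 then 1 else 0) = (∑' n, a n) - 1 := by
    have h7 : Summable a := by
      have := h3.add h5
      simpa using this
    rw [h7.tsum_sub h5, tsum_ite_eq]
  rw [h6] at h4
  rw [hL]
  have hpi : Real.pi ^ 4 ≤ 3.15 ^ 4 := by
    have := Real.pi_lt_d2
    gcongr
  have h8 : (1 : ℝ) ≤ ‖∑' n, a n‖ + ‖(∑' n, a n) - 1‖ := by
    have := norm_sub_le (∑' n, a n) ((∑' n, a n) - 1)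
    simpa using this
  have h9 : Real.pi ^ 4 / 90 - 1 ≤ 1 / 2 := by
    have : (3.15 : ℝ) ^ 4 ≤ 135 := by norm_num
    linarith
  linarith

lemma ell_five {d : ℤ} (hd : Squarefree d) : 1 / (2 * T.c) ≤ ‖T.ell d 5‖ := by
  have h1 := Lq_five T hd
  have h2 := Ep_bound T hd (s := 5) (by norm_num)
  have hc := c_pos T
  rw [Lq_def, norm_mul] at h1
  rw [div_le_iff₀ (by positivity)]
  have h3 : ‖T.ell d 5‖ * ‖Ep T d 5‖ ≤ ‖T.ell d 5‖ * T.c := by gcongr
  linarith

theorem ord_bound : ∃ C : ℝ, 1 ≤ C ∧ ∀ (d : ℤ) (X : ℕ), Squarefree d → 3 ≤ X → |d| ≤ X →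
    ∀ r : ℕ, (r : ℕ∞) ≤ analyticOrderAt (T.ell d) (1 / 2) → (r : ℝ) ≤ C * Real.log X := by
  obtain ⟨C, A, hC, h⟩ := T8d T
  have hc := c_pos T
  have hlog : 0 < Real.log (11 / 9) := Real.log_pos (by norm_num)
  refine ⟨max 1 ((|Real.log (2 * T.c * C)| + A) / Real.log (11 / 9)), le_max_left _ _,
    fun d X hd hX hdX r hr => ?_⟩
  have hd1 := one_le_abs hd
  have hX0 : (0 : ℝ) < X := by exact_mod_cast (by omega : 0 < X)
  have hdX' : |(d : ℝ)| ≤ X := by exact_mod_cast hdX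
  have hL1 : 1 ≤ Real.log X := by
    rw [Real.le_log_iff_exp_le hX0]
    have := Real.exp_one_lt_d9
    have h3 : (3 : ℝ) ≤ X := by exact_mod_cast hX
    linarith
  obtain ⟨g, hg1, hg2⟩ := Pool.Agent.Y180.QT12d1.exists_quot isOpen_univ (mem_univ (1 / 2 : ℂ))
    (T8a T d hd).1.differentiableOn hr
  have hg1' : Differentiable ℂ g := differentiableOn_univ.1 hg1
  have hmax : ‖g 5‖ ≤ C * |(d : ℝ)| ^ A / (11 / 2) ^ r := by
    refine Complex.norm_le_of_forall_mem_frontier_norm_le (U := Metric.ball (1 / 2 : ℂ) (11 / 2))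
      Metric.isBounded_ball hg1'.diffContOnCl (fun z hz => ?_) ?_
    · rw [frontier_ball _ (by norm_num), mem_sphere_iff_norm] at hz
      have h1 := hg2 z (mem_univ _)
      have h2 := h d z hd (by
        calc ‖z‖ = ‖(z - 1 / 2) + 1 / 2‖ := by ring_nf
          _ ≤ ‖z - 1 / 2‖ + ‖(1 / 2 : ℂ)‖ := norm_add_le _ _
          _ = 6 := by rw [hz]; norm_num)
      rw [h1, norm_mul, norm_pow, hz] at h2
      rw [le_div_iff₀ (by positivity)]
      linarith
    · rw [closure_ball _ (by norm_num), Metric.mem_closedBall, dist_eq_norm]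
      norm_num
  have h5 : ‖T.ell d 5‖ = (9 / 2) ^ r * ‖g 5‖ := by
    rw [hg2 5 (mem_univ _), norm_mul, norm_pow]
    norm_num
  have h6 := ell_five T hd
  rw [h5] at h6
  have h7 : (11 / 9 : ℝ) ^ r ≤ 2 * T.c * C * |(d : ℝ)| ^ A := by
    have e1 : (11 / 9 : ℝ) ^ r = (11 / 2) ^ r / (9 / 2) ^ r := by rw [← div_pow]; norm_num
    rw [e1, div_le_iff₀ (by positivity)]
    have h8 : 1 / (2 * T.c) ≤ (9 / 2) ^ r * (C * |(d : ℝ)| ^ A / (11 / 2) ^ r) :=
      h6.trans (by gcongr)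
    rw [div_le_iff₀ (by positivity)] at h8
    have h9 : (9 / 2 : ℝ) ^ r * (C * |(d : ℝ)| ^ A / (11 / 2) ^ r) * (2 * T.c) =
      (2 * T.c * C * |(d : ℝ)| ^ A * (9 / 2) ^ r) / (11 / 2) ^ r := by ring
    rw [h9, le_div_iff₀ (by positivity), one_mul] at h8
    exact h8
  have h8 : (r : ℝ) * Real.log (11 / 9) ≤ |Real.log (2 * T.c * C)| + A * Real.log X := by
    have e := Real.log_le_log (by positivity) h7
    rw [Real.log_pow, Real.log_mul (by positivity) (by positivity), Real.log_pow] at e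
    have e2 : Real.log |(d : ℝ)| ≤ Real.log X := Real.log_le_log (by linarith) hdX'
    have e3 := le_abs_self (Real.log (2 * T.c * C))
    have e4 : (A : ℝ) * Real.log |(d : ℝ)| ≤ A * Real.log X := by gcongr
    linarith
  calc (r : ℝ) ≤ (|Real.log (2 * T.c * C)| + A * Real.log X) / Real.log (11 / 9) := by
        rw [le_div_iff₀ hlog]; exact h8
    _ ≤ ((|Real.log (2 * T.c * C)| + A) * Real.log X) / Real.log (11 / 9) := by
        gcongr
        have := abs_nonneg (Real.log (2 * T.c * C))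
        nlinarith
    _ = (|Real.log (2 * T.c * C)| + A) / Real.log (11 / 9) * Real.log X := by ring
    _ ≤ _ := by gcongr; exact le_max_right _ _

theorem ord_ne_top {d : ℤ} (hd : Squarefree d) : analyticOrderAt (T.ell d) (1 / 2) ≠ ⊤ := by
  intro htop
  obtain ⟨C, hC, h⟩ := ord_bound T
  obtain ⟨r, hr⟩ := exists_nat_gt (C * Real.log ((d.natAbs + 3 : ℕ) : ℝ))
  have := h d (d.natAbs + 3) hd (by omega) (by push_cast; rw [Int.abs_eq_natAbs]; omega) r
    (by rw [htop]; exact le_top)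
  linarith

lemma Lq_diff {d : ℤ} (hd : Squarefree d) : DifferentiableOn ℂ (T.Lq d) {s | 1 / 4 < s.re} :=
  (T8a T d hd).1.differentiableOn.mul (Ep_diff T hd)

lemma Lq_order {d : ℤ} (hd : Squarefree d) {r : ℕ}
    (hr : (r : ℕ∞) ≤ analyticOrderAt (T.ell d) (1 / 2)) :
    (r : ℕ∞) ≤ analyticOrderAt (T.Lq d) (1 / 2) := by
  have hmem : {s : ℂ | 1 / 4 < s.re} ∈ 𝓝 (1 / 2 : ℂ) :=
    (isOpen_lt continuous_const continuous_re).mem_nhds (by show (1 : ℝ) / 4 < (1 / 2 : ℂ).re; norm_num)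
  have h1 : AnalyticAt ℂ (T.ell d) (1 / 2) := (T8a T d hd).1.analyticAt _
  have h2 : AnalyticAt ℂ (Ep T d) (1 / 2) := (Ep_diff T hd).analyticAt hmem
  have e : T.Lq d = T.ell d * Ep T d := rfl
  rw [e, analyticOrderAt_mul h1 h2]
  exact hr.trans le_self_add

end Pool.Agent.Y703.QT12
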