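import Pool.Agent.Y703.QT12.Ord
import Pool.Agent.Y19.QT.Sec
import Pool.Agent.Y141.QT12c2

/-! QT-T12, part 2: mean values. -/

set_option autoImplicit false

namespace Pool.Agent.Y703.QT12

open Complex MeasureTheory Filter Topology Set
open Pool.Agent.Y19.QT Pool.Agent.Y703.QT8
open Pool.Agent.Y180.QT12b2 (Ep cx Ep_bound Ep_diff Lq_eq lj_le)
open Pool.Agent.Y180.QT12d1 (Sq pt measurableSet_Sq)
open Pool.Agent.H306R2.RZ (js Gk)
open scoped ENNReal ComplexConjugate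

variable {Q : ℕ} {lam : ℕ → ℝ} (T : Twists Q lam)

lemma log_ge_one {X : ℕ} (hX : 3 ≤ X) : 1 ≤ Real.log X := by
  have hX0 : (0 : ℝ) < X := by exact_mod_cast (by omega : 0 < X)
  rw [Real.le_log_iff_exp_le hX0]
  have := Real.exp_one_lt_d9
  have h3 : (3 : ℝ) ≤ X := by exact_mod_cast hX
  linarith

lemma sqf_sqf {X : ℕ} {d : ℤ} (hd : d ∈ sqf X) : Squarefree d := (mem_sqf.1 hd).2

lemma sqf_abs {X : ℕ} {d : ℤ} (hd : d ∈ sqf X) : |(d : ℝ)| ≤ X := by
  have := (mem_sqf.1 hd).1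
  exact_mod_cast this

lemma sum_lintegral_le {ι α : Type*} [MeasurableSpace α] (μ : Measure α) (s : Finset ι)
    (f : ι → α → ℝ≥0∞) : ∑ i ∈ s, ∫⁻ a, f i a ∂μ ≤ ∫⁻ a, ∑ i ∈ s, f i a ∂μ := by
  classical
  induction s using Finset.induction_on with
  | empty => simp
  | insert i s hi ih =>
    rw [Finset.sum_insert hi]
    simp_rw [Finset.sum_insert hi]
    exact (add_le_add le_rfl ih).trans (le_lintegral_add _ _)

/-- the second moment on vertical lines -/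
theorem mean_ell : ∃ (C : ℝ) (A : ℕ), 0 < C ∧ ∀ (X : ℕ) (σ σ' : ℝ), 3 ≤ X → 0 ≤ σ → σ ≤ 1 → σ' ≤ 1 →
    1 / 2 + 1 / Real.log X ≤ σ' → |σ - 1 / 2| ≤ σ' - 1 / 2 →
    ∑ d ∈ sqf X, ∫⁻ y : ℝ, ‖T.ell d (σ + y * I)‖ₑ ^ 2 *
        ENNReal.ofReal (Real.exp (-(Real.pi / 8 * |y|))) ≤
      ENNReal.ofReal (C * (X : ℝ) ^ (1 + 2 * (σ' - σ)) * Real.log X ^ A) := by
  have hpi := Real.pi_pos
  have p0 : 0 < th0 := by unfold th0; positivity
  have p0' : th0 < Real.pi / 2 := by unfold th0; linarith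
  obtain ⟨C8, hC8, h8⟩ := T8b T th0 p0 p0'
  obtain ⟨C11, A, hC11, h11⟩ := T11 T
  refine ⟨C8 * C11, A, by positivity, fun X σ σ' hX h0 h1 h2 h3 h4 => ?_⟩
  have hX0 : (0 : ℝ) < X := by exact_mod_cast (by omega : 0 < X)
  have hL := log_ge_one hX
  have h5 := (abs_le.1 h4).2
  have e : Real.pi - 2 * th0 = Real.pi / 8 := by unfold th0; ring
  calc ∑ d ∈ sqf X, ∫⁻ y : ℝ, ‖T.ell d (σ + y * I)‖ₑ ^ 2 *
        ENNReal.ofReal (Real.exp (-(Real.pi / 8 * |y|)))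
      ≤ ∑ d ∈ sqf X, ENNReal.ofReal (C8 * (X : ℝ) ^ (2 * (σ' - σ))) *
          NN σ' th0 (T.q d)⁻¹ (T.Gf d) := by
        refine Finset.sum_le_sum fun d hd => ?_
        have h6 := h8 d σ σ' (sqf_sqf hd) h0 h1 h2 h4
        rw [e] at h6
        refine h6.trans ?_
        gcongr
        · linarith
        · exact sqf_abs hd
    _ = ENNReal.ofReal (C8 * (X : ℝ) ^ (2 * (σ' - σ))) *
          ∑ d ∈ sqf X, NN σ' th0 (T.q d)⁻¹ (T.Gf d) := by rw [Finset.mul_sum]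
    _ ≤ ENNReal.ofReal (C8 * (X : ℝ) ^ (2 * (σ' - σ))) *
          ENNReal.ofReal (C11 * X * Real.log X ^ A) := by
        gcongr
        exact h11 X σ' hX h3 h2
    _ = _ := by
        rw [← ENNReal.ofReal_mul (by positivity)]
        congr 1
        rw [Real.rpow_add hX0, Real.rpow_one]
        ring

lemma Lq_le {d : ℤ} (hd : Squarefree d) {s : ℂ} (hs : 1 / 4 ≤ s.re) :
    ‖T.Lq d s‖ₑ ^ 2 ≤ ENNReal.ofReal (T.c ^ 2) * ‖T.ell d s‖ₑ ^ 2 := by
  have hc := c_pos T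
  have h1 := Ep_bound T hd hs
  rw [Lq_def, enorm_mul, mul_pow, mul_comm, ENNReal.ofReal_pow hc.le]
  gcongr
  rw [← ofReal_norm]
  exact ENNReal.ofReal_le_ofReal h1

/-- the second moment of `L_d` over a square -/
theorem mean_Sq : ∃ (C : ℝ) (A : ℕ), 0 < C ∧ ∀ (X : ℕ) (δ : ℝ), 3 ≤ X → 1 / Real.log X ≤ 9 * δ →
    δ ≤ 1 / 100 →
    ∑ d ∈ sqf X, ∫⁻ p in Sq δ, ‖T.Lq d (pt δ p)‖ₑ ^ 2 ≤
      ENNReal.ofReal (C * (X : ℝ) ^ (1 + 32 * δ) * Real.log X ^ A) := by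
  obtain ⟨C, A, hC, h⟩ := mean_ell T
  have hc := c_pos T
  have hpi := Real.pi_pos
  refine ⟨T.c ^ 2 * Real.exp 1 * C, A, by positivity, fun X δ hX h1 h2 => ?_⟩
  have hX0 : (0 : ℝ) < X := by exact_mod_cast (by omega : 0 < X)
  have hX1 : (1 : ℝ) ≤ X := by exact_mod_cast (by omega : 1 ≤ X)
  have hL := log_ge_one hX
  have hδ : 0 < δ := by
    have : 0 < 1 / Real.log X := by positivity
    linarith
  have hin : ∀ d ∈ sqf X, ∀ x ∈ Icc (-(8 * δ)) (8 * δ),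
      ∫⁻ y in Icc (-(8 * δ)) (8 * δ), ‖T.Lq d (pt δ (x, y))‖ₑ ^ 2 ≤
      ENNReal.ofReal (T.c ^ 2 * Real.exp 1) *
        ∫⁻ y : ℝ, ‖T.ell d ((1 / 2 + δ + x : ℝ) + y * I)‖ₑ ^ 2 *
          ENNReal.ofReal (Real.exp (-(Real.pi / 8 * |y|))) := by
    intro d hd x hx
    rw [← lintegral_const_mul' _ _ ENNReal.ofReal_ne_top]
    refine (setLIntegral_mono_ae' measurableSet_Icc (Filter.Eventually.of_forall fun y hy => ?_)).trans
      (setLIntegral_le_lintegral (Icc (-(8 * δ)) (8 * δ)) _)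
    have e1 : pt δ (x, y) = ((1 / 2 + δ + x : ℝ) : ℂ) + y * I := by
      unfold pt
      push_cast
      ring
    rw [e1]
    have hre : (((1 / 2 + δ + x : ℝ) : ℂ) + y * I).re = 1 / 2 + δ + x := by simp
    have h3 := Lq_le T (sqf_sqf hd) (s := ((1 / 2 + δ + x : ℝ) : ℂ) + y * I)
      (by rw [hre]; linarith [hx.1])
    refine h3.trans ?_
    have h4 : (1 : ℝ) ≤ Real.exp 1 * Real.exp (-(Real.pi / 8 * |y|)) := by
      rw [← Real.exp_add, Real.one_le_exp_iff]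
      have : |y| ≤ 8 * δ := abs_le.2 hy
      have h5 : Real.pi / 8 * |y| ≤ Real.pi / 8 * (8 / 100) := by
        gcongr; linarith
      have := Real.pi_lt_four
      linarith
    have h5 : (1 : ℝ≥0∞) ≤ ENNReal.ofReal (Real.exp 1) *
        ENNReal.ofReal (Real.exp (-(Real.pi / 8 * |y|))) := by
      rw [← ENNReal.ofReal_mul (Real.exp_pos _).le, ← ENNReal.ofReal_one]
      exact ENNReal.ofReal_le_ofReal h4
    calc ENNReal.ofReal (T.c ^ 2) * ‖T.ell d (((1 / 2 + δ + x : ℝ) : ℂ) + y * I)‖ₑ ^ 2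
        = ENNReal.ofReal (T.c ^ 2) * ‖T.ell d (((1 / 2 + δ + x : ℝ) : ℂ) + y * I)‖ₑ ^ 2 * 1 := by
          rw [mul_one]
      _ ≤ ENNReal.ofReal (T.c ^ 2) * ‖T.ell d (((1 / 2 + δ + x : ℝ) : ℂ) + y * I)‖ₑ ^ 2 *
          (ENNReal.ofReal (Real.exp 1) * ENNReal.ofReal (Real.exp (-(Real.pi / 8 * |y|)))) := by
          gcongr
      _ = _ := by rw [ENNReal.ofReal_mul (by positivity)]; ring
  have hvol : ∀ d, ∫⁻ p in Sq δ, ‖T.Lq d (pt δ p)‖ₑ ^ 2 ≤
      ∫⁻ x in Icc (-(8 * δ)) (8 * δ), ∫⁻ y in Icc (-(8 * δ)) (8 * δ), ‖T.Lq d (pt δ (x, y))‖ₑ ^ 2 := by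
    intro d
    unfold Sq
    rw [Measure.volume_eq_prod, ← Measure.prod_restrict]
    exact lintegral_prod_le _
  calc ∑ d ∈ sqf X, ∫⁻ p in Sq δ, ‖T.Lq d (pt δ p)‖ₑ ^ 2
      ≤ ∑ d ∈ sqf X, ∫⁻ x in Icc (-(8 * δ)) (8 * δ), (ENNReal.ofReal (T.c ^ 2 * Real.exp 1) *
        ∫⁻ y : ℝ, ‖T.ell d ((1 / 2 + δ + x : ℝ) + y * I)‖ₑ ^ 2 *
          ENNReal.ofReal (Real.exp (-(Real.pi / 8 * |y|)))) := by
        refine Finset.sum_le_sum fun d hd => (hvol d).trans ?_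
        exact setLIntegral_mono_ae' measurableSet_Icc (Filter.Eventually.of_forall (hin d hd))
    _ ≤ ∫⁻ x in Icc (-(8 * δ)) (8 * δ), ∑ d ∈ sqf X, (ENNReal.ofReal (T.c ^ 2 * Real.exp 1) *
        ∫⁻ y : ℝ, ‖T.ell d ((1 / 2 + δ + x : ℝ) + y * I)‖ₑ ^ 2 *
          ENNReal.ofReal (Real.exp (-(Real.pi / 8 * |y|)))) := sum_lintegral_le _ _ _
    _ ≤ ∫⁻ x in Icc (-(8 * δ)) (8 * δ), ENNReal.ofReal (T.c ^ 2 * Real.exp 1) *
          ENNReal.ofReal (C * (X : ℝ) ^ (1 + 32 * δ) * Real.log X ^ A) := by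
        refine setLIntegral_mono_ae' measurableSet_Icc (Filter.Eventually.of_forall fun x hx => ?_)
        rw [← Finset.mul_sum]
        gcongr
        refine (h X (1 / 2 + δ + x) (1 / 2 + 9 * δ) hX (by linarith [hx.1]) (by linarith [hx.2])
          (by linarith) (by linarith) ?_).trans ?_
        · rw [abs_le]; constructor <;> linarith [hx.1, hx.2]
        · have h9 : (X : ℝ) ^ (1 + 2 * (1 / 2 + 9 * δ - (1 / 2 + δ + x))) ≤
              (X : ℝ) ^ (1 + 32 * δ) :=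
            Real.rpow_le_rpow_of_exponent_le hX1 (by linarith [hx.1])
          gcongr
    _ = ENNReal.ofReal (T.c ^ 2 * Real.exp 1) *
          ENNReal.ofReal (C * (X : ℝ) ^ (1 + 32 * δ) * Real.log X ^ A) *
          ENNReal.ofReal (8 * δ - (-(8 * δ))) := by
        rw [lintegral_const, Measure.restrict_apply_univ, Real.volume_Icc]
    _ ≤ ENNReal.ofReal (T.c ^ 2 * Real.exp 1) *
          ENNReal.ofReal (C * (X : ℝ) ^ (1 + 32 * δ) * Real.log X ^ A) * 1 := by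
        gcongr
        rw [← ENNReal.ofReal_one]
        exact ENNReal.ofReal_le_ofReal (by linarith)
    _ = _ := by
        rw [mul_one, ← ENNReal.ofReal_mul (by positivity)]
        congr 1
        ring

/-- the second moment of the mollifier over a square -/
theorem mean_Mol (H : Hecke Q lam) : ∃ (C : ℝ) (A : ℕ), 0 < C ∧ ∀ (X Y : ℕ) (δ : ℝ), 3 ≤ X →
    1 ≤ Y → (Y : ℝ) ^ 4 ≤ X → 0 < δ → δ ≤ 1 / 100 →
    ∑ d ∈ sqf X, ∫⁻ p in Sq δ, ‖Mol Q lam Y d (pt δ p)‖ₑ ^ 2 ≤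
      ENNReal.ofReal (C * X * Real.log X ^ A * (Y : ℝ) ^ (14 * δ)) := by
  obtain ⟨C, A, hC, h⟩ := Pool.Agent.Y141.QT12c2.T12c2 Q lam H
  refine ⟨C, A, hC, fun X Y δ hX hY hYX hδ hδ1 => ?_⟩
  have hL := log_ge_one hX
  have hY1 : (1 : ℝ) ≤ Y := by exact_mod_cast hY
  have hvol : volume (Sq δ) ≤ 1 := by
    unfold Sq
    rw [Measure.volume_eq_prod, Measure.prod_prod, Real.volume_Icc,
      ← ENNReal.ofReal_mul (by linarith), ← ENNReal.ofReal_one]
    apply ENNReal.ofReal_le_ofReal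
    nlinarith
  calc ∑ d ∈ sqf X, ∫⁻ p in Sq δ, ‖Mol Q lam Y d (pt δ p)‖ₑ ^ 2
      ≤ ∫⁻ p in Sq δ, ∑ d ∈ sqf X, ‖Mol Q lam Y d (pt δ p)‖ₑ ^ 2 := sum_lintegral_le _ _ _
    _ ≤ ∫⁻ p in Sq δ, ENNReal.ofReal (C * X * Real.log X ^ A * (Y : ℝ) ^ (14 * δ)) := by
        refine setLIntegral_mono_ae' (measurableSet_Sq δ)
          (Filter.Eventually.of_forall fun p hp => ?_)
        have hre : (pt δ p).re = 1 / 2 + δ + p.1 := by unfold pt; simp
        have hp1 : -(8 * δ) ≤ p.1 := hp.1.1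
        have h1 := h X Y (pt δ p) hX hY hYX (by rw [hre]; linarith)
        have e : ∑ d ∈ sqf X, ‖Mol Q lam Y d (pt δ p)‖ₑ ^ 2 =
            ENNReal.ofReal (∑ d ∈ sqf X, ‖Mol Q lam Y d (pt δ p)‖ ^ 2) := by
          rw [ENNReal.ofReal_sum_of_nonneg (fun d _ => by positivity)]
          refine Finset.sum_congr rfl fun d _ => ?_
          rw [ENNReal.ofReal_pow (norm_nonneg _), ofReal_norm]
        rw [e]
        apply ENNReal.ofReal_le_ofReal
        refine h1.trans ?_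
        have h3 : max 0 (1 / 2 - (pt δ p).re) ≤ 7 * δ := by
          rw [hre]; apply max_le <;> linarith
        have h4 : (Y : ℝ) ^ (2 * max 0 (1 / 2 - (pt δ p).re)) ≤ (Y : ℝ) ^ (14 * δ) :=
          Real.rpow_le_rpow_of_exponent_le hY1 (by linarith)
        gcongr
    _ = ENNReal.ofReal (C * X * Real.log X ^ A * (Y : ℝ) ^ (14 * δ)) * volume (Sq δ) := by
        rw [lintegral_const, Measure.restrict_apply_univ]
    _ ≤ ENNReal.ofReal (C * X * Real.log X ^ A * (Y : ℝ) ^ (14 * δ)) * 1 := by gcongr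
    _ = _ := mul_one _

/-- the integral in `T12b2` -/
noncomputable def JJ (Y : ℕ) (d : ℤ) : ℝ :=
  ∫ y : ℝ, ‖T.Lq d (1 / 2 + y * I)‖ * ‖Mol Q lam Y d (1 / 2 + y * I)‖ * Real.exp (-|y|)

lemma JJ_nonneg (Y : ℕ) (d : ℤ) : 0 ≤ JJ T Y d := by
  unfold JJ
  exact integral_nonneg fun y => by positivity

lemma exp_int : ∫⁻ y : ℝ, ENNReal.ofReal (Real.exp (-|y|)) = 2 := by
  rw [← lintegral_add_compl _ (measurableSet_Iic (a := (0 : ℝ))), compl_Iic]
  have e1 : ∫⁻ y in Iic (0 : ℝ), ENNReal.ofReal (Real.exp (-|y|)) = 1 := by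
    rw [setLIntegral_congr_fun measurableSet_Iic
      (g := fun y : ℝ => ENNReal.ofReal (Real.exp y)) (fun y hy => by
        simp only; rw [abs_of_nonpos hy, neg_neg]),
      ← ofReal_integral_eq_lintegral_ofReal (integrableOn_exp_Iic 0)
        (Filter.Eventually.of_forall fun y => (Real.exp_pos _).le), integral_exp_Iic_zero,
      ENNReal.ofReal_one]
  have e2 : ∫⁻ y in Ioi (0 : ℝ), ENNReal.ofReal (Real.exp (-|y|)) = 1 := by
    rw [setLIntegral_congr_fun measurableSet_Ioi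
      (g := fun y : ℝ => ENNReal.ofReal (Real.exp (-y))) (fun y hy => by
        simp only; rw [abs_of_pos hy]),
      ← ofReal_integral_eq_lintegral_ofReal (integrableOn_exp_neg_Ioi 0)
        (Filter.Eventually.of_forall fun y => (Real.exp_pos _).le), integral_exp_neg_Ioi_zero,
      ENNReal.ofReal_one]
  rw [e1, e2]
  norm_num

/-- the mean value of the integral in `T12b2` -/
theorem mean_JJ : ∃ (C : ℝ) (A : ℕ), 0 < C ∧ ∀ (X Y : ℕ), 3 ≤ X → 2 ≤ Real.log X → 1 ≤ Y →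
    (Y : ℝ) ^ 4 ≤ X → ∑ d ∈ sqf X, JJ T Y d ≤ C * X * Real.log X ^ A := by
  obtain ⟨C1, A1, hC1, h1⟩ := mean_ell T
  obtain ⟨C2, A2, hC2, h2⟩ := Pool.Agent.Y141.QT12c2.T12c2 Q lam T.hecke
  have hc := c_pos T
  refine ⟨T.c ^ 2 * C1 * Real.exp 2 + 2 * C2, A1 + A2, by positivity, fun X Y hX hX2 hY hYX => ?_⟩
  have hX0 : (0 : ℝ) < X := by exact_mod_cast (by omega : 0 < X)
  have hL := log_ge_one hX
  have hY1 : (1 : ℝ) ≤ Y := by exact_mod_cast hY
  have hpi := Real.pi_lt_four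
  have hb : ENNReal.ofReal (∑ d ∈ sqf X, JJ T Y d) ≤
      ENNReal.ofReal ((T.c ^ 2 * C1 * Real.exp 2 + 2 * C2) * X * Real.log X ^ (A1 + A2)) := by
    have e1 : ENNReal.ofReal (∑ d ∈ sqf X, JJ T Y d) ≤
        ∑ d ∈ sqf X, (∫⁻ y : ℝ, (‖T.Lq d (1 / 2 + y * I)‖ₑ ^ 2 +
          ‖Mol Q lam Y d (1 / 2 + y * I)‖ₑ ^ 2) * ENNReal.ofReal (Real.exp (-|y|))) := by
      rw [ENNReal.ofReal_sum_of_nonneg (fun d _ => JJ_nonneg T Y d)]
      refine Finset.sum_le_sum fun d _ => ?_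
      have h3 : ENNReal.ofReal (JJ T Y d) = ‖JJ T Y d‖ₑ := by
        rw [← ofReal_norm, Real.norm_of_nonneg (JJ_nonneg T Y d)]
      rw [h3]
      unfold JJ
      refine (enorm_integral_le_lintegral_enorm _).trans (lintegral_mono fun y => ?_)
      rw [enorm_mul, enorm_mul, enorm_norm, enorm_norm, ← ofReal_norm (Real.exp (-|y|)),
        Real.norm_of_nonneg (Real.exp_pos _).le]
      gcongr
      rcases le_total ‖T.Lq d (1 / 2 + y * I)‖ₑ ‖Mol Q lam Y d (1 / 2 + y * I)‖ₑ with h | h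
      · calc ‖T.Lq d (1 / 2 + y * I)‖ₑ * ‖Mol Q lam Y d (1 / 2 + y * I)‖ₑ
            ≤ ‖Mol Q lam Y d (1 / 2 + y * I)‖ₑ * ‖Mol Q lam Y d (1 / 2 + y * I)‖ₑ := by gcongr
          _ = ‖Mol Q lam Y d (1 / 2 + y * I)‖ₑ ^ 2 := (sq _).symm
          _ ≤ _ := le_add_self
      · calc ‖T.Lq d (1 / 2 + y * I)‖ₑ * ‖Mol Q lam Y d (1 / 2 + y * I)‖ₑ
            ≤ ‖T.Lq d (1 / 2 + y * I)‖ₑ * ‖T.Lq d (1 / 2 + y * I)‖ₑ := by gcongr
          _ = ‖T.Lq d (1 / 2 + y * I)‖ₑ ^ 2 := (sq _).symm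
          _ ≤ _ := le_self_add
    have hmM : ∀ d : ℤ, Measurable fun y : ℝ => ‖Mol Q lam Y d (1 / 2 + y * I)‖ₑ ^ 2 *
        ENNReal.ofReal (Real.exp (-|y|)) := by
      intro d
      have h4 : Continuous fun s : ℂ => Mol Q lam Y d s := by
        unfold Mol
        refine continuous_finsetSum _ fun h hh => ?_
        have hh1 := (Finset.mem_Icc.1 hh).1
        refine continuous_const.mul (continuous_const.cpow (by fun_prop) fun s => ?_)
        exact Or.inl (by simpa using (by omega : 0 < h))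
      have h5 : Continuous fun y : ℝ => Mol Q lam Y d (1 / 2 + y * I) := h4.comp (by fun_prop)
      have h6 : Measurable fun y : ℝ => ENNReal.ofReal (Real.exp (-|y|)) := by fun_prop
      exact ((h5.enorm.measurable).pow_const 2).mul h6
    have e2 : ∀ d ∈ sqf X, ∫⁻ y : ℝ, (‖T.Lq d (1 / 2 + y * I)‖ₑ ^ 2 +
        ‖Mol Q lam Y d (1 / 2 + y * I)‖ₑ ^ 2) * ENNReal.ofReal (Real.exp (-|y|)) ≤
        ENNReal.ofReal (T.c ^ 2) * (∫⁻ y : ℝ, ‖T.ell d ((1 / 2 : ℝ) + y * I)‖ₑ ^ 2 *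
          ENNReal.ofReal (Real.exp (-(Real.pi / 8 * |y|)))) +
        ∫⁻ y : ℝ, ‖Mol Q lam Y d (1 / 2 + y * I)‖ₑ ^ 2 * ENNReal.ofReal (Real.exp (-|y|)) := by
      intro d hd
      simp_rw [add_mul]
      rw [lintegral_add_right _ (hmM d), ← lintegral_const_mul' _ _ ENNReal.ofReal_ne_top]
      refine add_le_add (lintegral_mono fun y => ?_) le_rfl
      have es : (1 / 2 + (y : ℂ) * I) = (((1 / 2 : ℝ) : ℂ) + y * I) := by push_cast; ring
      have hre : (((1 / 2 : ℝ) : ℂ) + y * I).re = 1 / 2 := by simp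
      simp only
      rw [es, ← mul_assoc]
      refine mul_le_mul' (Lq_le T (sqf_sqf hd) (by rw [hre]; norm_num)) ?_
      apply ENNReal.ofReal_le_ofReal
      apply Real.exp_le_exp.2
      have := abs_nonneg y
      nlinarith
    have e3 : ∑ d ∈ sqf X, ∫⁻ y : ℝ, ‖T.ell d ((1 / 2 : ℝ) + y * I)‖ₑ ^ 2 *
          ENNReal.ofReal (Real.exp (-(Real.pi / 8 * |y|))) ≤
        ENNReal.ofReal (C1 * Real.exp 2 * X * Real.log X ^ A1) := by
      have hL0 : 0 < Real.log X := by linarith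
      refine (h1 X (1 / 2) (1 / 2 + 1 / Real.log X) hX (by norm_num) (by norm_num) ?_ le_rfl ?_).trans ?_
      · have : 1 / Real.log X ≤ 1 / 2 := one_div_le_one_div_of_le (by norm_num) hX2
        linarith
      · simp only [sub_self, abs_zero, add_sub_cancel_left]; positivity
      · apply le_of_eq
        congr 1
        rw [Real.rpow_add hX0, Real.rpow_one]
        have : (X : ℝ) ^ (2 * (1 / 2 + 1 / Real.log X - 1 / 2)) = Real.exp 2 := by
          rw [Real.rpow_def_of_pos hX0]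
          congr 1
          field_simp
          ring
        rw [this]
        ring
    have e4 : ∑ d ∈ sqf X, ∫⁻ y : ℝ, ‖Mol Q lam Y d (1 / 2 + y * I)‖ₑ ^ 2 *
          ENNReal.ofReal (Real.exp (-|y|)) ≤ ENNReal.ofReal (C2 * X * Real.log X ^ A2) * 2 := by
      refine (sum_lintegral_le _ _ _).trans ?_
      rw [← exp_int, ← lintegral_const_mul' _ _ ENNReal.ofReal_ne_top]
      refine lintegral_mono fun y => ?_
      simp only
      rw [← Finset.sum_mul]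
      gcongr
      have h7 := h2 X Y (1 / 2 + y * I) hX hY hYX (by simp; norm_num)
      have e : ∑ d ∈ sqf X, ‖Mol Q lam Y d (1 / 2 + y * I)‖ₑ ^ 2 =
          ENNReal.ofReal (∑ d ∈ sqf X, ‖Mol Q lam Y d (1 / 2 + y * I)‖ ^ 2) := by
        rw [ENNReal.ofReal_sum_of_nonneg (fun d _ => by positivity)]
        refine Finset.sum_congr rfl fun d _ => ?_
        rw [ENNReal.ofReal_pow (norm_nonneg _), ofReal_norm]
      rw [e]
      apply ENNReal.ofReal_le_ofReal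
      have hre : (1 / 2 + (y : ℂ) * I).re = 1 / 2 := by simp
      rw [hre, sub_self, max_self, mul_zero, Real.rpow_zero, mul_one] at h7
      exact h7
    refine e1.trans ((Finset.sum_le_sum e2).trans ?_)
    rw [Finset.sum_add_distrib, ← Finset.mul_sum]
    calc _ ≤ ENNReal.ofReal (T.c ^ 2) * ENNReal.ofReal (C1 * Real.exp 2 * X * Real.log X ^ A1) +
          ENNReal.ofReal (C2 * X * Real.log X ^ A2) * 2 := by gcongr
      _ = ENNReal.ofReal (T.c ^ 2 * (C1 * Real.exp 2 * X * Real.log X ^ A1) +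
          C2 * X * Real.log X ^ A2 * 2) := by
          rw [ENNReal.ofReal_add (by positivity) (by positivity),
            ENNReal.ofReal_mul (p := T.c ^ 2) (by positivity),
            ENNReal.ofReal_mul (p := C2 * X * Real.log X ^ A2) (by positivity)]
          norm_num
      _ ≤ _ := by
          apply ENNReal.ofReal_le_ofReal
          have h8 : Real.log X ^ A1 ≤ Real.log X ^ (A1 + A2) := pow_le_pow_right₀ hL (by omega)
          have h9 : Real.log X ^ A2 ≤ Real.log X ^ (A1 + A2) := pow_le_pow_right₀ hL (by omega)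
          calc T.c ^ 2 * (C1 * Real.exp 2 * X * Real.log X ^ A1) + C2 * X * Real.log X ^ A2 * 2
              ≤ T.c ^ 2 * (C1 * Real.exp 2 * X * Real.log X ^ (A1 + A2)) +
                C2 * X * Real.log X ^ (A1 + A2) * 2 := by gcongr
            _ = _ := by ring
  exact (ENNReal.ofReal_le_ofReal_iff (by positivity)).1 hb

end Pool.Agent.Y703.QT12
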