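import Pool.Agent.Y703.QT12.Mom
import Pool.Agent.Y141.QT12c1
import Pool.Agent.Y180.QT12b2

/-! QT-T12, part 3: the number of `d` with a given order of vanishing. -/

set_option autoImplicit false

namespace Pool.Agent.Y703.QT12

open Complex MeasureTheory Filter Topology Set
open Pool.Agent.Y19.QT Pool.Agent.Y703.QT8
open Pool.Agent.Y180.QT12b2 (Ep cx Ep_bound Ep_diff Lq_eq lj_le)
open Pool.Agent.Y180.QT12d1 (Sq pt measurableSet_Sq continuous_pt)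
open Pool.Agent.H306R2.RZ (js Gk)
open scoped ENNReal ComplexConjugate

variable {Q : ℕ} {lam : ℕ → ℝ} (T : Twists Q lam)

lemma card_sqf {X : ℕ} (hX : 1 ≤ X) : ((sqf X).card : ℝ) ≤ 3 * X := by
  have h1 : (sqf X).card ≤ (Finset.Icc (-(X : ℤ)) X).card := Finset.card_filter_le _ _
  have h2 : (Finset.Icc (-(X : ℤ)) X).card = 2 * X + 1 := by
    rw [Int.card_Icc]; omega
  rw [h2] at h1
  have h3 : (sqf X).card ≤ 3 * X := by omega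
  exact_mod_cast h3

/-- the set of `d` with order at least `r` -/
noncomputable def SS (X r : ℕ) : Finset ℤ := by
  classical
  exact (sqf X).filter (fun d => (r : ℕ∞) ≤ analyticOrderAt (T.ell d) (1 / 2))

lemma mem_SS {X r : ℕ} {d : ℤ} :
    d ∈ SS T X r ↔ d ∈ sqf X ∧ (r : ℕ∞) ≤ analyticOrderAt (T.ell d) (1 / 2) := by
  unfold SS
  simp

lemma SS_sub (X r : ℕ) : SS T X r ⊆ sqf X := fun _ hd => (mem_SS T |>.1 hd).1

lemma mol_cont (Y : ℕ) (d : ℤ) : Continuous fun s : ℂ => Mol Q lam Y d s := by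
  unfold Mol
  refine continuous_finsetSum _ fun h hh => ?_
  have hh1 := (Finset.mem_Icc.1 hh).1
  refine continuous_const.mul (continuous_const.cpow (by fun_prop) fun s => ?_)
  exact Or.inl (by simpa using (by omega : 0 < h))

lemma mol_diff (Y : ℕ) (d : ℤ) : Differentiable ℂ fun s : ℂ => Mol Q lam Y d s := by
  unfold Mol
  refine Differentiable.fun_sum fun h hh => ?_
  have hh1 := (Finset.mem_Icc.1 hh).1
  intro s
  refine DifferentiableAt.const_mul (DifferentiableAt.const_cpow (by fun_prop) (Or.inl ?_)) _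
  exact_mod_cast (by omega : h ≠ 0)

/-- the values at `1/2 + δ` -/
noncomputable def vv (Y : ℕ) (δ : ℝ) (d : ℤ) : ℂ :=
  T.Lq d (1 / 2 + δ) * Mol Q lam Y d (1 / 2 + δ)

/-- the first sum -/
theorem sum_vv : ∃ (C : ℝ) (A : ℕ), 0 < C ∧ ∀ (X Y r : ℕ) (δ : ℝ), 3 ≤ X → 1 ≤ Y → (Y : ℝ) ^ 4 ≤ X →
    1 / Real.log X ≤ 9 * δ → δ ≤ 1 / 100 →
    δ ^ 2 * 4 ^ r * ∑ d ∈ SS T X r, ‖vv T Y δ d‖ ≤ C * (X : ℝ) ^ (1 + 32 * δ) * Real.log X ^ A := by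
  obtain ⟨C1, A1, hC1, h1⟩ := mean_Sq T
  obtain ⟨C2, A2, hC2, h2⟩ := mean_Mol T.hecke
  refine ⟨C1 + C2, A1 + A2, by positivity, fun X Y r δ hX hY hYX hδ1 hδ2 => ?_⟩
  have hX0 : (0 : ℝ) < X := by exact_mod_cast (by omega : 0 < X)
  have hX1 : (1 : ℝ) ≤ X := by exact_mod_cast (by omega : 1 ≤ X)
  have hL := log_ge_one hX
  have hY1 : (1 : ℝ) ≤ Y := by exact_mod_cast hY
  have hδ : 0 < δ := by
    have : 0 < 1 / Real.log X := by positivity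
    linarith
  have hpi := Real.pi_gt_three
  have hYX1 : (Y : ℝ) ≤ X := by
    calc (Y : ℝ) ≤ (Y : ℝ) ^ 4 := le_self_pow₀ hY1 (by norm_num)
      _ ≤ X := hYX
  have key : ∀ d ∈ SS T X r, ENNReal.ofReal (3 * δ * (5 * δ)) * (ENNReal.ofReal (2 * Real.pi) *
      ENNReal.ofReal (4 ^ r * ‖vv T Y δ d‖)) ≤
      (∫⁻ p in Sq δ, ‖T.Lq d (pt δ p)‖ₑ ^ 2) + ∫⁻ p in Sq δ, ‖Mol Q lam Y d (pt δ p)‖ₑ ^ 2 := by
    intro d hd
    obtain ⟨hd1, hd2⟩ := (mem_SS T).1 hd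
    have hdiff : DifferentiableOn ℂ (T.Lq d) (Metric.ball (1 / 2) (20 * δ)) := by
      refine (Lq_diff T (sqf_sqf hd1)).mono fun s hs => ?_
      rw [Metric.mem_ball, dist_eq_norm] at hs
      have h3 := (Complex.abs_re_le_norm (s - 1 / 2)).trans hs.le
      have h4 : (s - 1 / 2).re = s.re - 1 / 2 := by simp
      rw [h4] at h3
      have := (abs_le.1 h3).1
      show 1 / 4 < s.re
      linarith
    have h5 := Pool.Agent.Y180.QT12d1.stepB (M := fun s => Mol Q lam Y d s) hδ hdiff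
      (mol_diff Y d).differentiableOn (Lq_order T (sqf_sqf hd1) hd2)
    have hm : Measurable fun p : ℝ × ℝ => ‖Mol Q lam Y d (pt δ p)‖ₑ ^ 2 :=
      (((mol_cont Y d).comp (continuous_pt δ)).enorm.measurable).pow_const 2
    rw [← lintegral_add_right _ hm]
    refine h5.trans (lintegral_mono fun p => ?_)
    rcases le_total ‖T.Lq d (pt δ p)‖ₑ ‖Mol Q lam Y d (pt δ p)‖ₑ with h | h
    · calc ‖T.Lq d (pt δ p)‖ₑ * ‖Mol Q lam Y d (pt δ p)‖ₑ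
          ≤ ‖Mol Q lam Y d (pt δ p)‖ₑ * ‖Mol Q lam Y d (pt δ p)‖ₑ := by gcongr
        _ = ‖Mol Q lam Y d (pt δ p)‖ₑ ^ 2 := (sq _).symm
        _ ≤ _ := le_add_self
    · calc ‖T.Lq d (pt δ p)‖ₑ * ‖Mol Q lam Y d (pt δ p)‖ₑ
          ≤ ‖T.Lq d (pt δ p)‖ₑ * ‖T.Lq d (pt δ p)‖ₑ := by gcongr
        _ = ‖T.Lq d (pt δ p)‖ₑ ^ 2 := (sq _).symm
        _ ≤ _ := le_self_add
  have hsum : ENNReal.ofReal (3 * δ * (5 * δ) * (2 * Real.pi) *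
      (4 ^ r * ∑ d ∈ SS T X r, ‖vv T Y δ d‖)) ≤
      ENNReal.ofReal (C1 * (X : ℝ) ^ (1 + 32 * δ) * Real.log X ^ A1 +
        C2 * X * Real.log X ^ A2 * (Y : ℝ) ^ (14 * δ)) := by
    rw [ENNReal.ofReal_mul (by positivity), ENNReal.ofReal_mul (by positivity), mul_assoc,
      Finset.mul_sum, ENNReal.ofReal_sum_of_nonneg (fun d _ => by positivity), Finset.mul_sum,
      Finset.mul_sum, ENNReal.ofReal_add (by positivity) (by positivity)]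
    refine (Finset.sum_le_sum key).trans ?_
    rw [Finset.sum_add_distrib]
    refine add_le_add ?_ ?_
    · exact (Finset.sum_le_sum_of_subset (SS_sub T X r)).trans (h1 X δ hX hδ1 hδ2)
    · exact (Finset.sum_le_sum_of_subset (SS_sub T X r)).trans (h2 X Y δ hX hY hYX hδ hδ2)
  have hreal := (ENNReal.ofReal_le_ofReal_iff (by positivity)).1 hsum
  have hV : 0 ≤ ∑ d ∈ SS T X r, ‖vv T Y δ d‖ := Finset.sum_nonneg fun d _ => norm_nonneg _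
  have e1 : (X : ℝ) * (Y : ℝ) ^ (14 * δ) ≤ (X : ℝ) ^ (1 + 32 * δ) := by
    rw [Real.rpow_add hX0, Real.rpow_one]
    gcongr
    calc (Y : ℝ) ^ (14 * δ) ≤ (X : ℝ) ^ (14 * δ) :=
          Real.rpow_le_rpow (by positivity) hYX1 (by positivity)
      _ ≤ (X : ℝ) ^ (32 * δ) := Real.rpow_le_rpow_of_exponent_le hX1 (by linarith)
  have h8 : Real.log X ^ A1 ≤ Real.log X ^ (A1 + A2) := pow_le_pow_right₀ hL (by omega)
  have h9 : Real.log X ^ A2 ≤ Real.log X ^ (A1 + A2) := pow_le_pow_right₀ hL (by omega)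
  calc δ ^ 2 * 4 ^ r * ∑ d ∈ SS T X r, ‖vv T Y δ d‖
      ≤ 30 * Real.pi * (δ ^ 2 * 4 ^ r * ∑ d ∈ SS T X r, ‖vv T Y δ d‖) := by
        have : 0 ≤ δ ^ 2 * 4 ^ r * ∑ d ∈ SS T X r, ‖vv T Y δ d‖ := by positivity
        nlinarith
    _ = 3 * δ * (5 * δ) * (2 * Real.pi) * (4 ^ r * ∑ d ∈ SS T X r, ‖vv T Y δ d‖) := by ring
    _ ≤ C1 * (X : ℝ) ^ (1 + 32 * δ) * Real.log X ^ A1 +
        C2 * X * Real.log X ^ A2 * (Y : ℝ) ^ (14 * δ) := hreal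
    _ = C1 * (X : ℝ) ^ (1 + 32 * δ) * Real.log X ^ A1 +
        C2 * (X * (Y : ℝ) ^ (14 * δ)) * Real.log X ^ A2 := by ring
    _ ≤ C1 * (X : ℝ) ^ (1 + 32 * δ) * Real.log X ^ (A1 + A2) +
        C2 * (X : ℝ) ^ (1 + 32 * δ) * Real.log X ^ (A1 + A2) := by gcongr
    _ = _ := by ring

/-- the second sum -/
theorem sum_uu : ∃ (C : ℝ) (A : ℕ), 0 < C ∧ ∀ (X Y : ℕ) (Z δ τ : ℝ), 3 ≤ X → 2 ≤ Real.log X → 1 ≤ Y →
    (Y : ℝ) ^ 4 ≤ X → 1 ≤ Z → Z ^ 4 ≤ X → 0 < δ → δ ≤ 1 / 4 → 0 < τ →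
    ∑ d ∈ sqf X, ‖vv T Y δ d - 1‖ ≤ C * Real.log X ^ A * (X * τ + τ⁻¹ * X * (Y : ℝ) ^ (-δ) * (δ⁻¹) ^ A +
      τ⁻¹ + X * Z⁻¹ + δ⁻¹ * Z ^ (-δ) * X) := by
  obtain ⟨C3, A3, hC3, h3⟩ := mean_JJ T
  obtain ⟨C4, A4, hC4, h4⟩ := Pool.Agent.Y141.QT12c1.T12c1 Q lam T.hecke
  obtain ⟨C5, hC5, h5⟩ := Pool.Agent.Y180.QT12b2.T12b2 T (T8a T)
  refine ⟨3 + C4 + C5 * C3, A3 + A4, by positivity,
    fun X Y Z δ τ hX hX2 hY hYX hZ hZX hδ hδ1 hτ => ?_⟩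
  have hX0 : (0 : ℝ) < X := by exact_mod_cast (by omega : 0 < X)
  have hL := log_ge_one hX
  set t : ℤ → ℝ := fun d => ‖∑' n : ℕ, if Y < n then ((cY Q lam Y n * js d n *
    (n : ℝ) ^ (-(1 / 2 + δ)) * Real.exp (-(n / Z)) : ℝ) : ℂ) else 0‖ with ht
  have hcard := card_sqf (X := X) (by omega)
  have h6 : ∑ d ∈ sqf X, t d ≤ 3 * X * τ + τ⁻¹ * (C4 * X * (Y : ℝ) ^ (-δ) * (δ⁻¹) ^ A4 + C4) := by
    have h7 : ∀ d ∈ sqf X, t d ≤ τ + τ⁻¹ * t d ^ 2 := by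
      intro d _
      have h8 : 0 ≤ t d := norm_nonneg _
      have h9 : t d * τ ≤ τ ^ 2 + t d ^ 2 := by nlinarith [sq_nonneg (τ - t d), mul_nonneg h8 hτ.le]
      have h10 : t d = t d * τ * τ⁻¹ := by field_simp
      rw [h10]
      calc t d * τ * τ⁻¹ ≤ (τ ^ 2 + t d ^ 2) * τ⁻¹ := by gcongr
        _ = τ + τ⁻¹ * (t d) ^ 2 := by field_simp
        _ = τ + τ⁻¹ * (t d * τ * τ⁻¹) ^ 2 := by rw [← h10]
    refine (Finset.sum_le_sum h7).trans ?_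
    rw [Finset.sum_add_distrib, ← Finset.mul_sum, Finset.sum_const, nsmul_eq_mul]
    have h8 := h4 X Y Z δ hX hY hYX hZ hZX hδ hδ1
    gcongr
  have h7 : ∀ d ∈ sqf X, ‖vv T Y δ d - 1‖ ≤ t d + 1 / Z + C5 / δ * Z ^ (-δ) * JJ T Y d :=
    fun d hd => h5 d Y Z δ (sqf_sqf hd) hY hZ hδ hδ1
  have h8 := h3 X Y hX hX2 hY hYX
  have g3 : Real.log X ^ A3 ≤ Real.log X ^ (A3 + A4) := pow_le_pow_right₀ hL (by omega)
  have g0 : 1 ≤ Real.log X ^ (A3 + A4) := one_le_pow₀ hL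
  have hδi : 1 ≤ δ⁻¹ := by rw [one_le_inv₀ hδ]; linarith
  have g4 : δ⁻¹ ^ A4 ≤ δ⁻¹ ^ (A3 + A4) := pow_le_pow_right₀ hδi (by omega)
  have hY0 : 0 ≤ (Y : ℝ) ^ (-δ) := by positivity
  have hZ0 : 0 ≤ Z ^ (-δ) := by positivity
  have hZi : 0 ≤ Z⁻¹ := by positivity
  calc ∑ d ∈ sqf X, ‖vv T Y δ d - 1‖
      ≤ ∑ d ∈ sqf X, (t d + 1 / Z + C5 / δ * Z ^ (-δ) * JJ T Y d) := Finset.sum_le_sum h7
    _ = ∑ d ∈ sqf X, t d + (sqf X).card * (1 / Z) +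
        C5 / δ * Z ^ (-δ) * ∑ d ∈ sqf X, JJ T Y d := by
        rw [Finset.sum_add_distrib, Finset.sum_add_distrib, Finset.sum_const, nsmul_eq_mul,
          Finset.mul_sum]
    _ ≤ (3 * X * τ + τ⁻¹ * (C4 * X * (Y : ℝ) ^ (-δ) * (δ⁻¹) ^ A4 + C4)) + 3 * X * (1 / Z) +
        C5 / δ * Z ^ (-δ) * (C3 * X * Real.log X ^ A3) := by gcongr
    _ = 3 * (X * τ) * 1 + C4 * (τ⁻¹ * X * (Y : ℝ) ^ (-δ) * δ⁻¹ ^ A4) * 1 + C4 * τ⁻¹ * 1 +
        3 * (X * Z⁻¹) * 1 + C5 * C3 * (δ⁻¹ * Z ^ (-δ) * X) * Real.log X ^ A3 := by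
        rw [one_div, div_eq_mul_inv]; ring
    _ ≤ 3 * (X * τ) * Real.log X ^ (A3 + A4) +
        C4 * (τ⁻¹ * X * (Y : ℝ) ^ (-δ) * δ⁻¹ ^ (A3 + A4)) * Real.log X ^ (A3 + A4) +
        C4 * τ⁻¹ * Real.log X ^ (A3 + A4) +
        3 * (X * Z⁻¹) * Real.log X ^ (A3 + A4) +
        C5 * C3 * (δ⁻¹ * Z ^ (-δ) * X) * Real.log X ^ (A3 + A4) := by gcongr
    _ ≤ _ := by
        set Λ := Real.log X ^ (A3 + A4) with hΛ
        have hΛ0 : 0 ≤ Λ := by positivity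
        have q1 : 0 ≤ (X * τ) * Λ := by positivity
        have q2 : 0 ≤ (τ⁻¹ * X * (Y : ℝ) ^ (-δ) * δ⁻¹ ^ (A3 + A4)) * Λ := by positivity
        have q3 : 0 ≤ τ⁻¹ * Λ := by positivity
        have q4 : 0 ≤ (X * Z⁻¹) * Λ := by positivity
        have q5 : 0 ≤ (δ⁻¹ * Z ^ (-δ) * X) * Λ := by positivity
        have hc53 : 0 < C5 * C3 := by positivity
        nlinarith [mul_nonneg hC4.le q1, mul_nonneg hC4.le q2, mul_nonneg hC4.le q3,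
          mul_nonneg hC4.le q4, mul_nonneg hC4.le q5, mul_nonneg hc53.le q1, mul_nonneg hc53.le q2,
          mul_nonneg hc53.le q3, mul_nonneg hc53.le q4, mul_nonneg hc53.le q5]

end Pool.Agent.Y703.QT12
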